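import Pool.Agent.H430R2.PermCubes.Defs

set_option autoImplicit false

/-!
# Three orthogonal latin cubes of order six
-/

namespace V1140.Aont

open Function Pool.Agent.H430R2.PermCubes

/-- the table of the first cube, three bits for each entry -/
def tab : ℕ := 0x6a520ba14b0169170514a8e04e951915d2a082b44b42ca4468294b8d0a697021622da36022b51405d14a8e04e945c16c05a6a520ba14a4468294b2d0b20ad151915d2a022b51405d68d80588b8d0a69702

/-- the inverse table, eight bits for each entry -/
def itab : ℕ := 0xac07a53e924b2acbcfb5056182895028186c9d59372175d4105ac09b8b47147a33ae6abe25d5cac20f5c8f8148351379a702b2369c580b67bb93863f1e722ea965b99851441c70cc878e552d2074b10cad43975332d0d7ba0a66196d29a45dc3904c3c177dc70362b6a07e3a52429671cd1d68bc09844094732f1f63b7aac6167c00b30e399f80d63126c5a35f54498d60b4047f3ba16e271a5ec4a24d3d917bc815469a8ad12c30bdb0694f5688d323770dab067834126bbfaf57389e76d2225bc1118c4599b8a8644a4e83ce1b6f08a601419585c9242b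

/-- the first cube -/
def K (a b c : Fin 6) : Fin 6 :=
  Fin.ofNat 6 (Nat.land (Nat.shiftRight tab (3 * (36 * a.val + 6 * b.val + c.val))) 7)

/-- the inverse map -/
def G (a b c : Fin 6) : ℕ :=
  Nat.land (Nat.shiftRight itab (8 * (36 * a.val + 6 * b.val + c.val))) 255

set_option maxRecDepth 100000 in
theorem K1 : ∀ a b c d : Fin 6, K a b c = K a b d → c = d := by decide +kernel

set_option maxRecDepth 100000 in
theorem K2 : ∀ a b c d : Fin 6, K a c b = K a d b → c = d := by decide +kernel

set_option maxRecDepth 100000 in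
theorem K3 : ∀ a b c d : Fin 6, K c a b = K d a b → c = d := by decide +kernel

set_option maxRecDepth 100000 in
theorem GK : ∀ a b c : Fin 6, G (K a b c) (K b c a) (K c a b) =
    36 * a.val + 6 * b.val + c.val := by decide +kernel

/-- the three cubes -/
def C3 : Fin 3 → (Fin 3 → Fin 6) → Fin 6 :=
  ![fun x => K (x 0) (x 1) (x 2), fun x => K (x 1) (x 2) (x 0), fun x => K (x 2) (x 0) (x 1)]

theorem C3_perm (j : Fin 3) : IsPermutationCube 3 6 (C3 j) := by
  intro i x
  rw [← Finite.injective_iff_bijective]
  intro t t' h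
  fin_cases j <;> fin_cases i <;>
    simp [C3, Function.update] at h <;>
    first
      | exact K1 _ _ _ _ h
      | exact K2 _ _ _ _ h
      | exact K3 _ _ _ _ h

theorem C3_inj : Injective (fun (x : Fin 3 → Fin 6) (i : Fin 3) => C3 i x) := by
  intro x y h
  have h0 : K (x 0) (x 1) (x 2) = K (y 0) (y 1) (y 2) := congrFun h 0
  have h1 : K (x 1) (x 2) (x 0) = K (y 1) (y 2) (y 0) := congrFun h 1
  have h2 : K (x 2) (x 0) (x 1) = K (y 2) (y 0) (y 1) := congrFun h 2
  have e := GK (x 0) (x 1) (x 2)
  rw [h0, h1, h2, GK] at e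
  have := (x 0).isLt
  have := (x 1).isLt
  have := (x 2).isLt
  have := (y 0).isLt
  have := (y 1).isLt
  have := (y 2).isLt
  funext i
  apply Fin.ext
  fin_cases i
  · show (x 0).val = (y 0).val; omega
  · show (x 1).val = (y 1).val; omega
  · show (x 2).val = (y 2).val; omega

end V1140.Aont
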